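import Pool.Agent.helper36.HK.Spec
import Pool.Agent.helper95.FI.SpecM
import Pool.Agent.helper17.CH.SpecV
import Pool.Agent.helper24.SK.Spec

/-!
# Project bp (MP_ad8ced_nt, theorem (B+)): prime elements of `ℤ[√8]` in narrow sectors.  Definitions.

`L = log x`; the norms have the size `x²`, the sectors the width `h ≥ x^(-1/3+η)`.
-/

set_option autoImplicit false

open Finset
open Pool.Agent.FI Pool.Agent.HK
open Pool.Agent.CH (nit rgh ll2)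
open Pool.Agent.SK (tr0 Th)

noncomputable section

namespace Pool.Agent.BP

/-! ## exponential sums -/

/-- sizes and nondegeneracy: no Taylor coefficient of the phase `α log |p + h| + β log |q + h|` is too small -/
def NDp (l : ℕ) (ρ N α β p q : ℝ) : Prop :=
  N ≤ |p| ∧ |p| ≤ 50 * N ∧ N ≤ |q| ∧ |q| ≤ 50 * N ∧
    ∀ j ∈ Icc 1 (5 * l), ρ * max |α| |β| / (50 * N) ^ j ≤ |α / p ^ j + β / q ^ j|

open scoped Classical in
/-- the elements of the fundamental domain without the parity condition -/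
def FE (u : ℕ) : Finset (ℤ × ℤ) :=
  {z ∈ Bx (2 * u) | (4 * |z.2| < z.1 ∨ |z.1| < 2 * z.2) ∧ nn z ≤ u}

/-- the smooth part of the character with both twists -/
def Fyt (i : ℕ) (κ τ : ℝ) (y : ℕ) (z : ℤ × ℤ) : ℂ := Fy i κ y z * nit τ (nn z)

/-! ## rough numbers -/

open scoped Classical in
/-- restriction to the `y`-rough integers -/
def rg (y : ℝ) (g : ℕ → ℂ) (n : ℕ) : ℂ := if rgh y n then g n else 0

/-- `μ g` -/
def mg (g : ℕ → ℂ) (n : ℕ) : ℂ := (ArithmeticFunction.moebius n : ℂ) * g n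

open scoped Classical in
/-- `μ g` on the `y`-smooth integers -/
def ms (y : ℝ) (g : ℕ → ℂ) (n : ℕ) : ℂ := if ∀ p : ℕ, p.Prime → p ∣ n → (p : ℝ) ≤ y then mg g n else 0

/-- the coefficients of `∏_{p ≤ y} (1 - g(p) p^(-s)) (1 - h(p) p^(-s))` -/
def hs (y : ℝ) (g h : ℕ → ℂ) : ℕ → ℂ := cv (ms y g) (ms y h)

/-- cancellation in the partial sums, uniformly in the height -/
def Hs (x : ℝ) (A : ℕ) (R : ℝ) (a : ℕ → ℂ) : Prop := ∀ τ : ℝ, |τ| ≤ R → ∀ v : ℕ, Real.exp (CH.dl x) ≤ v →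
  ‖∑ n ∈ Ioc 0 v, a n * nit τ n‖ ≤ v / Real.log x ^ A

/-- the data of a complex character, rough version -/
def DtR (x : ℝ) (A : ℕ) (R : ℝ) (k₁ k₂ g₁ g₂ h₁ h₂ : ℕ → ℂ) : Prop :=
  CM k₁ ∧ CM k₂ ∧ CM g₁ ∧ CM g₂ ∧ CM h₁ ∧ CM h₂ ∧ Tri k₁ k₂ g₁ g₂ h₁ h₂ ∧
  (∀ p : ℕ, p.Prime → ‖k₁ p + k₂ p‖ ≤ if p % 8 = 1 ∨ p % 8 = 7 then 2 else 0) ∧
  Hs x A R (cv g₁ g₂) ∧ Hs x A (2 * R) (cv h₁ h₂)

/-! ## elements -/

/-- the Moebius function of the odd elements: `z = g z₀`, `z₀` primitive, `nn z₀ = nn z / g²` -/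
def mue (z : ℤ × ℤ) : ℝ :=
  if Squarefree (Int.gcd z.1 z.2) ∧ Nat.Coprime (Int.gcd z.1 z.2) (nn z / Int.gcd z.1 z.2 ^ 2) then
    (ArithmeticFunction.moebius (nn z / Int.gcd z.1 z.2 ^ 2) : ℝ) * ch8 (Int.gcd z.1 z.2) else 0

/-- multiplicative on the odd elements, invariant under the units -/
def MU (Ψ : ℤ × ℤ → ℂ) : Prop :=
  (∀ z w : ℤ × ℤ, z.1 % 2 = 1 → w.1 % 2 = 1 → Ψ (mul8 z w) = Ψ z * Ψ w) ∧ ∀ u : ℤ × ℤ, N8 u = 1 → Ψ u = 1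

/-- the cut of the Moebius variables, `64 x² ≤ zx³` -/
def zx (x : ℕ) : ℕ := ⌈4 * (x : ℝ) ^ (2 / 3 : ℝ)⌉₊

/-- the three kinds of factors: `1`, `log`, the cut Moebius function -/
def wt (x a : ℕ) (z : ℤ × ℤ) : ℝ :=
  if a = 0 then 1 else if a = 1 then Real.log (nn z) else if nn z ≤ zx x then mue z else 0

/-- the polynomial of the block `[2^e, 2^(e+1))` -/
def pol (f : ℤ × ℤ → ℂ) (e : ℕ) (t : ℝ) : ℂ := ∑ n ∈ Ico (2 ^ e) (2 ^ (e + 1)), rf f n * nit t n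

/-- the Fejer kernel -/
def fjk (K : ℕ) (u : ℝ) : ℂ :=
  ∑ m ∈ Icc (-(K : ℤ)) K, ((1 - |(m : ℝ)| / K : ℝ) : ℂ) * Complex.exp (((2 * Real.pi * m * u : ℝ) : ℂ) * Complex.I)

/-- the weighted sum over the prime elements -/
def PW (u : ℕ) (w : ℕ → ℝ) (F : ℤ × ℤ → ℂ) : ℂ :=
  ∑ z ∈ FF u with (nn z).Prime, ((Real.log (nn z) * w (nn z) : ℝ) : ℂ) * F z

/-- the tent in the norm -/
def tl (v δ : ℝ) (n : ℕ) : ℝ := tr0 v δ (Real.log n)

/-- the weighted number of the prime elements with negative norm, angle weight `tn h c`, `d ∣ l` -/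
def Gw (u : ℕ) (w : ℕ → ℝ) (h c : ℝ) (d : ℕ) : ℝ :=
  ∑ z ∈ FF u with (nn z).Prime ∧ N8 z < 0 ∧ (d : ℤ) ∣ z.2, Real.log (nn z) * w (nn z) * tn h c (yy z)

end Pool.Agent.BP
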