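import Pool.Agent.helper36.BP.SpecD
import Pool.Agent.helper72.HK.MUL

/-! # bp:PRC: products of sums over the elements -/

set_option autoImplicit false

open Finset
open Pool.Agent.FI Pool.Agent.HK
open Pool.Agent.CH (nit rgh ll2)
open Pool.Agent.SK (tr0 Th)

noncomputable section

namespace Pool.Agent.BP

/-- the associate in the fundamental domain -/
private def PRC_rep (hFDE : FDE_stmt) (ζ : ℤ × ℤ) : ℤ × ℤ :=
  if h : ζ.1 % 2 = 1 then mul8 (hFDE ζ h).choose ζ else (0, 0)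

private lemma PRC_rep_spec (hFDE : FDE_stmt) (ζ : ℤ × ℤ) (h : ζ.1 % 2 = 1) :
    ∃ u : ℤ × ℤ, N8 u = 1 ∧ PRC_rep hFDE ζ = mul8 u ζ ∧ Fd (PRC_rep hFDE ζ) := by
  refine ⟨(hFDE ζ h).choose, (hFDE ζ h).choose_spec.1, ?_, ?_⟩
  · rw [PRC_rep, dif_pos h]
  · rw [PRC_rep, dif_pos h]
    exact (hFDE ζ h).choose_spec.2

private lemma PRC_mem {u : ℕ} {z : ℤ × ℤ} (hSIZ : SIZ_stmt) : z ∈ FF u ↔ Fd z ∧ nn z ≤ u := by
  classical
  unfold FF
  rw [Finset.mem_filter]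
  constructor
  · exact fun h => h.2
  · intro h
    refine ⟨?_, h⟩
    obtain ⟨h1, h2, h3, -, -⟩ := hSIZ z h.1
    have hu : (nn z : ℤ) ≤ u := by exact_mod_cast h.2
    have h0 : (1 : ℤ) ≤ nn z := by exact_mod_cast h3
    rw [Finset.mem_product, Finset.mem_Icc, Finset.mem_Icc]
    refine ⟨⟨?_, ?_⟩, ?_, ?_⟩ <;> nlinarith

private lemma PRC_nn1 {z : ℤ × ℤ} (hSIZ : SIZ_stmt) (hz : Fd z) (h : nn z ≤ 1) : z = (1, 0) := by
  obtain ⟨h1, h2, h3, -, h5⟩ := hSIZ z hz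
  have hn : nn z = 1 := by omega
  rw [hn] at h1 h2 h5
  have hz1 : z.1 % 2 = 1 := hz.1
  rcases h5 with ⟨h6, -⟩ | ⟨-, h7⟩
  · unfold N8 at h6
    have a1 : z.2 ^ 2 ≤ 1 := by exact_mod_cast h2
    have a2 : z.1 ^ 2 ≤ 2 := by exact_mod_cast h1
    have b1 : -1 ≤ z.2 ∧ z.2 ≤ 1 := ⟨by nlinarith, by nlinarith⟩
    have b2 : -1 ≤ z.1 ∧ z.1 ≤ 1 := ⟨by nlinarith, by nlinarith⟩
    have c1 : z.2 = 0 := by
      have : z.2 = -1 ∨ z.2 = 0 ∨ z.2 = 1 := by omega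
      rcases this with h | h | h
      · rw [h] at h6; push_cast at h6; nlinarith
      · exact h
      · rw [h] at h6; push_cast at h6; nlinarith
    have c2 : z.1 = 1 := by
      have hd := hz.2
      rw [c1] at hd
      simp only [abs_zero, mul_zero] at hd
      rcases hd with h | h
      · omega
      · exact absurd h (not_lt.2 (abs_nonneg _))
    exact Prod.ext c2 c1
  · omega

/-- the number of the pairs with a given product -/
private lemma PRC_card (hFDE : FDE_stmt) (hFDU : FDU_stmt) (hCN2 : CN2_stmt) (hSIZ : SIZ_stmt) (M N : ℕ)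
    (v : ℤ × ℤ) (hv : Fd v) :
    ((FF M ×ˢ FF N).filter fun p => PRC_rep hFDE (mul8 p.1 p.2) = v).card ≤ (nn v).divisors.card ^ 3 := by
  classical
  set S : Finset (ℤ × ℤ) := (nn v).divisors.biUnion fun m => (FF m).filter fun z => nn z = m with hS
  have hSc : S.card ≤ (nn v).divisors.card ^ 3 := by
    refine le_trans Finset.card_biUnion_le ?_
    refine le_trans (Finset.sum_le_card_nsmul _ _ ((nn v).divisors.card ^ 2) ?_) ?_
    · intro m hm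
      obtain ⟨-, -, h3, -, h5⟩ := hSIZ v hv
      have hmo : Odd m := by
        have : Odd (nn v) := by
          rw [Nat.odd_iff]
          rcases h5 with ⟨-, h⟩ | ⟨-, h⟩ <;> omega
        exact this.of_dvd_nat (Nat.dvd_of_mem_divisors hm)
      refine le_trans (hCN2 m hmo) ?_
      exact Nat.pow_le_pow_left (Finset.card_le_card (Nat.divisors_subset_of_dvd h3.ne' (Nat.dvd_of_mem_divisors hm))) 2
    · rw [smul_eq_mul, pow_succ' _ 2]
  refine le_trans (Finset.card_le_card_of_injOn (fun p => p.1) ?_ ?_) hSc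
  · intro p hp
    rw [Finset.mem_coe, Finset.mem_filter, Finset.mem_product] at hp
    obtain ⟨⟨h1, h2⟩, h3⟩ := hp
    obtain ⟨f1, n1⟩ := (PRC_mem hSIZ).1 h1
    obtain ⟨f2, n2⟩ := (PRC_mem hSIZ).1 h2
    obtain ⟨u, hu1, hu2, -⟩ := PRC_rep_spec hFDE (mul8 p.1 p.2) (MUL_odd f1.1 f2.1)
    have hnn : nn v = nn p.1 * nn p.2 := by
      rw [← h3, hu2, MUL_nn, MUL_nn, MUL_nn1 hu1, one_mul]
    have h0 : 0 < nn v := (hSIZ v hv).2.2.1
    rw [hS, Finset.mem_coe, Finset.mem_biUnion]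
    refine ⟨nn p.1, ?_, ?_⟩
    · rw [Nat.mem_divisors]
      exact ⟨⟨nn p.2, hnn⟩, h0.ne'⟩
    · rw [Finset.mem_filter]
      exact ⟨(PRC_mem hSIZ).2 ⟨f1, le_rfl⟩, rfl⟩
  · intro p hp q hq hpq
    rw [Finset.mem_coe, Finset.mem_filter, Finset.mem_product] at hp hq
    obtain ⟨⟨h1, h2⟩, h3⟩ := hp
    obtain ⟨⟨g1, g2⟩, g3⟩ := hq
    have e1 : p.1 = q.1 := hpq
    obtain ⟨f1, -⟩ := (PRC_mem hSIZ).1 h1
    obtain ⟨f2, -⟩ := (PRC_mem hSIZ).1 h2
    obtain ⟨f4, -⟩ := (PRC_mem hSIZ).1 g2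
    obtain ⟨u, hu1, hu2, -⟩ := PRC_rep_spec hFDE (mul8 p.1 p.2) (MUL_odd f1.1 f2.1)
    obtain ⟨w, hw1, hw2, -⟩ := PRC_rep_spec hFDE (mul8 p.1 q.2) (MUL_odd f1.1 f4.1)
    rw [← e1] at g3
    have h4 : mul8 u (mul8 p.1 p.2) = mul8 w (mul8 p.1 q.2) := by
      rw [← hu2, ← hw2, h3, g3]
    have h5 : mul8 p.1 (mul8 (mul8 (cj w) u) p.2) = mul8 p.1 q.2 := by
      have h6 := congrArg (mul8 (cj w)) h4
      rw [MUL_cj1 hw1] at h6
      rw [← h6, MUL_left p.1 (mul8 (cj w) u) p.2, ← MUL_assoc (cj w) u (mul8 p.1 p.2)]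
    have h6 := MUL_cancel f1.1 h5
    have hN : nn (mul8 (cj w) u) = 1 := by
      rw [MUL_nn, MUL_nn1 hu1, MUL_nn1 (by rw [MUL_cjn, hw1]), one_mul]
    have h7 : mul8 (cj w) u = (1, 0) := by
      refine hFDU p.2 _ f2 hN ?_
      rw [h6]
      exact f4
    rw [h7, MUL_one] at h6
    exact Prod.ext e1 h6

/-- two factors -/
private lemma PRC_two (hFDE : FDE_stmt) (hFDU : FDU_stmt) (hCN2 : CN2_stmt) (hSIZ : SIZ_stmt) (M N : ℕ)
    (f f' : ℤ × ℤ → ℂ) (W V : ℝ) (k : ℕ) (hW : 0 ≤ W) (hV : 0 ≤ V)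
    (hf : ∀ z ∈ FF M, ‖f z‖ ≤ W * ((nn z).divisors.card : ℝ) ^ k) (hf' : ∀ z, ‖f' z‖ ≤ V) :
    ∃ b : ℤ × ℤ → ℂ, (∀ v ∈ FF (M * N), ‖b v‖ ≤ (W * V) * ((nn v).divisors.card : ℝ) ^ (k + 3)) ∧
      ∀ Ψ : ℤ × ℤ → ℂ, MU Ψ →
        (∑ z ∈ FF M, f z * Ψ z) * (∑ z ∈ FF N, f' z * Ψ z) = ∑ v ∈ FF (M * N), b v * Ψ v := by
  classical
  refine ⟨fun v => ∑ p ∈ (FF M ×ˢ FF N).filter (fun p => PRC_rep hFDE (mul8 p.1 p.2) = v), f p.1 * f' p.2, ?_, ?_⟩
  · intro v hv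
    obtain ⟨fv, nv⟩ := (PRC_mem hSIZ).1 hv
    have h0 : 0 < nn v := (hSIZ v fv).2.2.1
    have hterm : ∀ p ∈ (FF M ×ˢ FF N).filter (fun p => PRC_rep hFDE (mul8 p.1 p.2) = v),
        ‖f p.1 * f' p.2‖ ≤ (W * V) * ((nn v).divisors.card : ℝ) ^ k := by
      intro p hp
      rw [Finset.mem_filter, Finset.mem_product] at hp
      obtain ⟨⟨h1, h2⟩, h3⟩ := hp
      obtain ⟨f1, n1⟩ := (PRC_mem hSIZ).1 h1
      obtain ⟨f2, n2⟩ := (PRC_mem hSIZ).1 h2
      obtain ⟨u, hu1, hu2, -⟩ := PRC_rep_spec hFDE (mul8 p.1 p.2) (MUL_odd f1.1 f2.1)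
      have hnn : nn v = nn p.1 * nn p.2 := by
        rw [← h3, hu2, MUL_nn, MUL_nn, MUL_nn1 hu1, one_mul]
      have hd : ((nn p.1).divisors.card : ℝ) ≤ (nn v).divisors.card := by
        exact_mod_cast Finset.card_le_card (Nat.divisors_subset_of_dvd h0.ne' ⟨nn p.2, hnn⟩)
      rw [norm_mul]
      calc ‖f p.1‖ * ‖f' p.2‖ ≤ (W * ((nn p.1).divisors.card : ℝ) ^ k) * V :=
            mul_le_mul (hf _ h1) (hf' _) (norm_nonneg _) (by positivity)
        _ ≤ (W * ((nn v).divisors.card : ℝ) ^ k) * V := by gcongr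
        _ = _ := by ring
    refine le_trans (norm_sum_le _ _) (le_trans (Finset.sum_le_card_nsmul _ _ _ hterm) ?_)
    rw [nsmul_eq_mul]
    have hc := PRC_card hFDE hFDU hCN2 hSIZ M N v fv
    have hc' : (((FF M ×ˢ FF N).filter fun p => PRC_rep hFDE (mul8 p.1 p.2) = v).card : ℝ) ≤
        ((nn v).divisors.card : ℝ) ^ 3 := by exact_mod_cast hc
    calc _ ≤ ((nn v).divisors.card : ℝ) ^ 3 * ((W * V) * ((nn v).divisors.card : ℝ) ^ k) :=
          mul_le_mul_of_nonneg_right hc' (by positivity)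
      _ = _ := by ring
  · intro Ψ hΨ
    have hval : ∀ p ∈ FF M ×ˢ FF N, Ψ (PRC_rep hFDE (mul8 p.1 p.2)) = Ψ p.1 * Ψ p.2 ∧
        PRC_rep hFDE (mul8 p.1 p.2) ∈ FF (M * N) := by
      intro p hp
      rw [Finset.mem_product] at hp
      obtain ⟨f1, n1⟩ := (PRC_mem hSIZ).1 hp.1
      obtain ⟨f2, n2⟩ := (PRC_mem hSIZ).1 hp.2
      obtain ⟨u, hu1, hu2, hu3⟩ := PRC_rep_spec hFDE (mul8 p.1 p.2) (MUL_odd f1.1 f2.1)
      constructor
      · rw [hu2, hΨ.1 _ _ (MUL_unit hu1) (MUL_odd f1.1 f2.1), hΨ.2 _ hu1, one_mul, hΨ.1 _ _ f1.1 f2.1]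
      · rw [PRC_mem hSIZ]
        refine ⟨hu3, ?_⟩
        rw [hu2, MUL_nn, MUL_nn, MUL_nn1 hu1, one_mul]
        exact Nat.mul_le_mul n1 n2
    rw [Finset.sum_mul_sum, ← Finset.sum_product']
    rw [← Finset.sum_fiberwise_of_maps_to (t := FF (M * N)) (g := fun p => PRC_rep hFDE (mul8 p.1 p.2))
      (fun p hp => (hval p hp).2)]
    refine Finset.sum_congr rfl fun v _ => ?_
    rw [Finset.sum_mul]
    refine Finset.sum_congr rfl fun p hp => ?_
    rw [Finset.mem_filter] at hp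
    have := (hval p hp.1).1
    rw [hp.2] at this
    rw [this]
    ring

theorem PRC (hFDE : FDE_stmt) (hFDU : FDU_stmt) (hCN2 : CN2_stmt) (hSIZ : SIZ_stmt) : PRC_stmt := by
  classical
  intro r
  induction r with
  | zero =>
    intro f N V hV hf hN
    refine ⟨fun _ => 1, ?_, ?_⟩
    · intro v _
      simp
    · intro Ψ hΨ
      have hF : FF (∏ k : Fin 0, N k) = {(1, 0)} := by
        rw [Finset.univ_eq_empty, Finset.prod_empty]
        ext z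
        rw [PRC_mem hSIZ, Finset.mem_singleton]
        constructor
        · exact fun h => PRC_nn1 hSIZ h.1 h.2
        · rintro rfl
          refine ⟨⟨by norm_num, Or.inl (by norm_num)⟩, ?_⟩
          unfold nn N8
          norm_num
      rw [hF, Finset.sum_singleton, Finset.univ_eq_empty, Finset.prod_empty, one_mul, hΨ.2 (1, 0) (by unfold N8; norm_num)]
  | succ r ih =>
    intro f N V hV hf hN
    obtain ⟨b, hb1, hb2⟩ := ih (fun k => f (Fin.castSucc k)) (fun k => N (Fin.castSucc k)) V hV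
      (fun k z => hf _ z) (fun k => hN _)
    obtain ⟨c, hc1, hc2⟩ := PRC_two hFDE hFDU hCN2 hSIZ (∏ k : Fin r, N (Fin.castSucc k)) (N (Fin.last r)) b
      (f (Fin.last r)) (V ^ r) V (3 * r) (by positivity) (by linarith) hb1 (hf _)
    refine ⟨c, ?_, ?_⟩
    · rw [Fin.prod_univ_castSucc]
      intro v hv
      have h := hc1 v hv
      have e1 : V ^ r * V = V ^ (r + 1) := (pow_succ V r).symm
      have e2 : 3 * r + 3 = 3 * (r + 1) := by ring
      rw [e1, e2] at h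
      exact h
    · intro Ψ hΨ
      rw [Fin.prod_univ_castSucc, Fin.prod_univ_castSucc, hb2 Ψ hΨ]
      exact hc2 Ψ hΨ

end Pool.Agent.BP
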