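import Pool.Agent.helper36.BP.Defs
import Pool.Agent.helper8.GD.Spec

/-!
# Project bp, Spec R: rough numbers, 3-4-1, the Moebius function with Hecke characters (Chudakov)

Rules as in SpecE (import Pool.Agent.helper36.BP.SpecR).  `g, h : ℕ → ℂ` are completely multiplicative (`CM`), `cv` is the Dirichlet convolution, `DF a j s = ∑ a(n) (log n)^j n^(-s)`.  `D = CH.dl x = (log x)^(19/20)`, `yx x = exp D`, `ℓ = ll2 x = log log x`.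
`rg y g` is again `CM`, `cv (rg y g) (rg y h) n = cv g h n` for `y`-rough `n` and `0` otherwise, and `Tri` is inherited by the `rg y` (the primes `p ≤ y` fall under the third case).  The hypothesis `Hs x A R a`: `|∑_{n ≤ v} a(n) n^(iτ)| ≤ v/(log x)^A` for all `|τ| ≤ R`, `v ≥ yx x`.
The templates (project CH, characters mod q): Pool/Agent/helper69/CH/RGH.lean, helper75/CH/LD.lean, helper15/CH/LB.lean, helper61/CH/LG.lean, helper65/CH/LF.lean, helper70/CH/FS.lean, helper67/CH/VP.lean (statements in Pool/Agent/helper17/CH/SpecV.lean).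
-/

set_option autoImplicit false

open Finset
open Pool.Agent.FI Pool.Agent.HK
open Pool.Agent.CH (nit rgh ll2)
open Pool.Agent.SK (tr0 Th)

noncomputable section

namespace Pool.Agent.BP

/-- the roughness -/
def yx (x : ℝ) : ℝ := Real.exp (CH.dl x)

open scoped Classical in
/-- **RTC** (short, medium; rough numbers weighted with the divisor function).  From `CH.RC_stmt`.  For rough `n > 1`, `n ≤ u`: `τ(n) ≤ 2 #{(a,b) : ab = n, a ≤ b}`.  `a = 1`: the rough `n ∈ (1, u]` are at most `C u/log y` (RC minus `n = 1`).  `a > 1`: `a` rough, `y < a ≤ √u`, `b ≤ u/a` rough: `∑_a (1 + C u/(a log y))`, at most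
`C √u/log y` values of `a`, and `∑_{y < a ≤ u, rough} 1/a ≤ C (1 + log u)/log y` (Abel summation with RC). -/
def RTC_stmt : Prop := ∃ C : ℝ, 0 < C ∧ ∀ (y : ℝ) (u : ℕ), 2 ≤ y →
  ∑ n ∈ Ioc 1 u with rgh y n, (#n.divisors : ℝ) ≤ C * (u / Real.log y) * (1 + Real.log u / Real.log y)

/-- **HSF** (medium; the smooth factor).  `rg y g = ms y g * g` (Dirichlet convolution): for completely multiplicative `g` the convolution at `n` is `g(n) ∑_{e ∣ n, e y-smooth} μ(e)`, which is `g(n)` if `n` is rough and `0` otherwise.  `mg g = ms y g * mg (rg y g)`: `n = n₁ n₂`, `n₁` smooth, `n₂` rough, is the only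
factorization that counts, `μ` is multiplicative.  Now commutativity and associativity (`ArithmeticFunction ℂ`).  Third claim: `‖ms y g a‖ ≤ μ²(a) [a smooth]`, so with `θ = 1/log y` the sum is at most `(∑_{a smooth, squarefree} a^(θ-1))² = ∏_{p ≤ y} (1 + p^(θ-1))² ≤ exp(2e ∑_{p ≤ y} 1/p)` (`p^θ ≤ e`), `2e < 6`, Mertens
(`∑_{p≤y} 1/p ≤ log log y + C`, as in helper69/CH/RGH.lean). -/
def HSF_stmt : Prop := (∀ (y : ℝ) (g h : ℕ → ℂ), CM g → CM h → ∀ n : ℕ, 1 ≤ n →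
    cv (rg y g) (rg y h) n = cv (hs y g h) (cv g h) n ∧
    cv (mg g) (mg h) n = cv (hs y g h) (cv (mg (rg y g)) (mg (rg y h))) n) ∧
  ∃ C : ℝ, 0 < C ∧ ∀ (y : ℝ) (g h : ℕ → ℂ), 2 ≤ y → CM g → CM h → ∀ E : ℕ,
    ∑ e ∈ Ioc 0 E, ‖hs y g h e‖ * (e : ℝ) ^ (1 / Real.log y) / e ≤ C * (1 + Real.log y) ^ 6

/-- **RGB** (medium; copy of RGH of CH).  From HSF.  `S(v) = ∑_{n ≤ v} cv g h n nit τ n`; the sum is `∑_{e ≤ u} hs(e) nit τ e S(⌊u/e⌋)` (`nit τ` is multiplicative).  `⌊u/e⌋ ≥ y`: `|S| ≤ (u/e)/L^(A+6)` and `∑ |hs(e)|/e ≤ C (1 + D)^6 ≤ C' L^6`.  `⌊u/e⌋ < y`, so `e > u/(2y)`: `|S| ≤ ∑_{n ≤ u/e} τ(n) ≤ (u/e)(2 + 2D)`, and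
`∑_{e > u/(2y)} |hs(e)|/e ≤ ∑ (|hs(e)|/e) (2ye/u)^(1/log y) ≤ 2e · e^(-log u/D) C (1 + D)^6`. -/
def RGB_stmt : Prop := ∀ A : ℕ, ∃ C x₀ : ℝ, 0 < C ∧ ∀ x : ℝ, x₀ ≤ x → ∀ (R : ℝ) (g h : ℕ → ℂ), CM g → CM h →
  Hs x (A + 6) R (cv g h) → ∀ τ : ℝ, |τ| ≤ R → ∀ u : ℕ, 1 ≤ u →
  ‖∑ n ∈ Ioc 0 u, cv (rg (yx x) g) (rg (yx x) h) n * nit τ n‖ ≤
    C * u * (Real.log x ^ 8 * Real.exp (-(Real.log u / CH.dl x)) + 1 / Real.log x ^ A)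

/-- **RDB** (medium, long; copy of LD of CH).  From RTC, RGB (with `A = J + 2`; `A₁ = J + 8`).  `s = σ + iτ`, `R(u)` = sum of `cv (rg g) (rg h) (n) n^(-iτ)` over `1 < n ≤ u`.  Partial summation: `|DF j s| ≤ 1 + C_j ∫_y^∞ |R(u)| (log u)^j u^(-σ-1) du` (`y = yx x`; the coefficients vanish for `1 < n ≤ y`).  `u ≤ y^S`, `S = 9ℓ`:
`|R(u)| ≤ C (u/D)(1 + log u/D)` (RTC, `|cv| ≤ τ`): contribution `≤ C ∫_0^{SD} D^(-1) (1 + v/D) v^j dv ≤ C D^j S^(j+2)`.  `u > y^S`: RGB (and the term `n = 1`): `L^8 ∫_{SD}^∞ e^(-v/D) v^j dv ≤ C L^8 D^(j+1) S^j e^(-S) ≤ C D^j S^j` and `L^(-J-2) ∫ v^j e^(-v/log x) dv ≤ j!`. -/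
def RDB_stmt : Prop := ∀ J : ℕ, ∃ (A₁ : ℕ) (C x₀ : ℝ), 0 < C ∧ ∀ x : ℝ, x₀ ≤ x → ∀ (R : ℝ) (g h : ℕ → ℂ), CM g → CM h →
  Hs x A₁ R (cv g h) → ∀ σ τ : ℝ, 1 + 1 / Real.log x ≤ σ → σ ≤ 2 → |τ| ≤ R → ∀ j ≤ J,
  ‖DF (cv (rg (yx x) g) (rg (yx x) h)) j ((σ : ℂ) + τ * Complex.I)‖ ≤ C * CH.dl x ^ j * ll2 x ^ (j + 2)

/-- **FZB** (medium; the principal character, rough).  From `GD.G2_stmt` (statement in Pool/Agent/helper8/GD/Spec.lean).  `DF (cv (rg y k₁) (rg y k₂)) 0 σ = LSeries (rg y k₁) σ · LSeries (rg y k₂) σ` and `LSeries k σ = exp (∑_p -log (1 - k(p) p^(-σ)))` (as in row TFO, Pool/Agent/helper49/HK/TFO.lean), `|exp z| = exp (Re z)`,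
`Re (-log (1-w)) ≤ Re w + |w|²` for `|w| ≤ 1/2`: `log |DF| ≤ ∑_{p > y} (|k₁(p) + k₂(p)| p^(-σ) + 2 p^(-2σ)) ≤ ∑_{p > y, p ≡ ±1 mod 8} 2 p^(-σ) + C`.  By G2, for `y ≤ v`: `∑_{y < p ≤ v, p ≡ ±1} 2/p ≤ log (log v/log y) + C`.  Let `v = max y (exp(1/(σ-1)))`: the `p ≤ v` contribute at most
`log (1 + 1/((σ-1) log y)) + C`, the `p > v`: blocks `(v^(2^k), v^(2^(k+1))]`: `∑ 2 p^(-σ) ≤ v^(-2^k (σ-1)) (log 2 + C) ≤ e^(-2^k) (log 2 + C)`.  (For `2 ≤ y` G2 is applied with `u = ⌊y⌋`, `log ⌊y⌋ ≥ log y/2`.) -/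
def FZB_stmt : Prop := ∃ C : ℝ, 0 < C ∧ ∀ k₁ k₂ : ℕ → ℂ, CM k₁ → CM k₂ →
  (∀ p : ℕ, p.Prime → ‖k₁ p + k₂ p‖ ≤ if p % 8 = 1 ∨ p % 8 = 7 then 2 else 0) →
  ∀ y σ : ℝ, 2 ≤ y → 1 < σ → σ ≤ 2 → ‖DF (cv (rg y k₁) (rg y k₂)) 0 (σ : ℂ)‖ ≤ C * (1 + 1 / ((σ - 1) * Real.log y))

/-- **RLB** (medium, long; copy of LB of CH).  From TFO (of HK), RDB (with `J = 1`), FZB.  Let `F₁(σ)` = the function to be bounded, `u = (σ-1) D`.  TFO for the functions `rg y k₁, ...` (with `x = σ - 1`, `t = τ`; `1 + x + It = σ + iτ`, `1 + x + 2It = σ + 2iτ`): `1 ≤ |F₀(σ)|³ |F₁(σ)|⁴ |F₂|`, `F₀ ≤ C (1 + 1/u)` (FZB, `log y = D`),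
`|F₂| ≤ C ℓ²` (RDB, `j = 0`, for `h₁, h₂` and the height `2τ`).  So `|F₁(σ)| ≥ c min(1,u)^(3/4) ℓ^(-1/2)`.  `|dF₁/dσ| = |DF .. 1 ..| ≤ C D ℓ³` (RDB, `j = 1`; the derivative of `DF a 0` is `-DF a 1`, see Pool/Agent/helper47/HK/LIP.lean).  `σ₀ = 1 + u₀/D`, `u₀ = c₁ ℓ^(-14)`: for `σ < σ₀`
`|F₁(σ)| ≥ |F₁(σ₀)| - (σ₀ - σ) C D ℓ³ ≥ c u₀^(3/4) ℓ^(-1/2) - C u₀ ℓ³ ≥ c' ℓ^(-11)` if `c₁` is small. -/
def RLB_stmt : Prop := ∃ (A₁ : ℕ) (c x₀ : ℝ), 0 < c ∧ ∀ x : ℝ, x₀ ≤ x → ∀ (R : ℝ) (k₁ k₂ g₁ g₂ h₁ h₂ : ℕ → ℂ),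
  DtR x A₁ R k₁ k₂ g₁ g₂ h₁ h₂ → ∀ σ τ : ℝ, 1 + 1 / Real.log x ≤ σ → σ ≤ 2 → |τ| ≤ R →
  c / ll2 x ^ 11 ≤ ‖DF (cv (rg (yx x) g₁) (rg (yx x) g₂)) 0 ((σ : ℂ) + τ * Complex.I)‖

/-- **RMB** (medium; copy of LG of CH).  From RDB, RLB.  `a = cv (mg (rg g₁)) (mg (rg g₂))`, `b = cv (rg g₁) (rg g₂)`: `a * b` is the unit (`mg g * g = unit` for `CM g`), so for `Re s > 1` `∑_{i ≤ j} C(j,i) DF a i s · DF b (j-i) s = 1` for `j = 0`, `= 0` for `j ≥ 1` (`log` is a derivation; compare `RCS` of HK,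
Pool/Agent/helper77/HK/RCS.lean).  Induction on `j`: `|DF a 0| ≤ ℓ^11/c`, `|DF a j| ≤ (ℓ^11/c) ∑_{i<j} C(j,i) |DF a i| C D^(j-i) ℓ^(j-i+2)`. (`A₁` = maximum of those of RDB and RLB; `Hs` with a larger exponent is stronger.) -/
def RMB_stmt : Prop := ∀ J : ℕ, ∃ (A₁ E : ℕ) (x₀ : ℝ), ∀ x : ℝ, x₀ ≤ x → ∀ (R : ℝ) (k₁ k₂ g₁ g₂ h₁ h₂ : ℕ → ℂ),
  DtR x A₁ R k₁ k₂ g₁ g₂ h₁ h₂ → ∀ σ τ : ℝ, 1 + 1 / Real.log x ≤ σ → σ ≤ 2 → |τ| ≤ R → ∀ j ≤ J,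
  ‖DF (cv (mg (rg (yx x) g₁)) (mg (rg (yx x) g₂))) j ((σ : ℂ) + τ * Complex.I)‖ ≤ CH.dl x ^ j * ll2 x ^ E

/-- **MMB** (medium; copy of LF of CH).  From RMB, HSF.  `cv (mg g₁) (mg g₂) = hs * a` (HSF, `y = yx x`), so `DF (..) j s = ∑_{i ≤ j} C(j,i) P_(j-i) DF a i s`, `P_i = ∑ hs(e) (log e)^i e^(-s)`, `|P_i| ≤ ∑ |hs(e)| (log e)^i/e ≤ i! D^i ∑ |hs(e)| e^(1/D)/e ≤ C i! D^i (1 + D)^6` (`(log e/D)^i ≤ i! e^(log e/D)`; HSF, `log y = D`).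
Total `≤ C_J D^(j+6) ℓ^E ≤ D^(j+8)`. -/
def MMB_stmt : Prop := ∀ J : ℕ, ∃ (A₁ : ℕ) (x₀ : ℝ), ∀ x : ℝ, x₀ ≤ x → ∀ (R : ℝ) (k₁ k₂ g₁ g₂ h₁ h₂ : ℕ → ℂ),
  DtR x A₁ R k₁ k₂ g₁ g₂ h₁ h₂ → ∀ σ τ : ℝ, 1 + 1 / Real.log x ≤ σ → σ ≤ 2 → |τ| ≤ R → ∀ j ≤ J,
  ‖DF (cv (mg g₁) (mg g₂)) j ((σ : ℂ) + τ * Complex.I)‖ ≤ CH.dl x ^ (j + 8)

/-- **FSB** (medium, long; copy of Pool/Agent/helper70/CH/FS.lean with `‖a n‖ ≤ τ(n)`).  `b n = a n (log n)^K`.  Trivial bound: `∑ τ(n) (log n)^K n^(-σ) ≤ C L^(K+2)`, `σ = 1 + 1/L` (`(log n)^K ≤ C_K L^K n^(1/(2L))`, `∑ τ(n) n^(-1-1/(2L)) = ζ(1 + 1/(2L))²`).  So the smoothed sums `∑_{n ≤ y} b n (1 - n/y)`, `y ≤ 2x`, are at most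
`C y (U + V/R)`, `U = L^(K-m)` for `|t| ≤ R = L^m`, `V = C L^(K+2)`.  Removing the smoothing (difference of the smoothed sums at `x(1+δ)` and `x`, `δ = L^(-m')`) costs `∑_{x < n ≤ x(1+δ)} τ(n) (log n)^K ≤ C (δ x L + √x) (2L)^K` (`τ(n) ≤ 2 #{d ∣ n : d ≤ √n}`); the factor `(log n)^K` is removed by partial summation as there
(for `n ≤ x/L^(A+2)` trivially, `∑_{n ≤ v} τ(n) ≤ v (1 + log v)`).  `m` large in terms of `A`. -/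
def FSB_stmt : Prop := ∀ A : ℕ, ∃ m : ℕ, ∀ K : ℕ, ∃ C x₀ : ℝ, 0 < C ∧ ∀ x : ℝ, x₀ ≤ x → ∀ a : ℕ → ℂ,
  (∀ n, ‖a n‖ ≤ #n.divisors) →
  (∀ t : ℝ, |t| ≤ Real.log x ^ m →
    ‖LSeries (fun n => a n * (Real.log n : ℂ) ^ K) (1 + 1 / (Real.log x : ℂ) + t * Complex.I)‖ ≤
      Real.log x ^ K / Real.log x ^ m) →
  ‖∑ n ∈ Ioc 0 ⌊x⌋₊, a n‖ ≤ C * x / Real.log x ^ A

/-- **VMG** (medium; copy of VP of CH).  From MMB, FSB.  `a n = cv (mg g₁) (mg g₂) n · nit t n` (`‖a n‖ ≤ τ(n)`), `LSeries (a log^K) (σ + iu) = DF (cv (mg g₁) (mg g₂)) K (σ + i(u-t))`, `|u - t| ≤ R + (log x)^m`; `m` from FSB for `A + 1`, `K = 20m + 160`: `D^(K+8) = (log x)^(19(K+8)/20) ≤ (log x)^(K-m)`.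
`A₁` = maximum of `m` and that of MMB for `J = K`. -/
def VMG_stmt : Prop := ∀ A : ℕ, ∃ (A₁ : ℕ) (x₀ : ℝ), ∀ x : ℝ, x₀ ≤ x → ∀ (R : ℝ) (k₁ k₂ g₁ g₂ h₁ h₂ : ℕ → ℂ),
  DtR x A₁ (R + Real.log x ^ A₁) k₁ k₂ g₁ g₂ h₁ h₂ → ∀ t : ℝ, |t| ≤ R →
  ‖∑ n ∈ Ioc 0 ⌊x⌋₊, cv (mg g₁) (mg g₂) n * nit t n‖ ≤ x / Real.log x ^ A

end Pool.Agent.BP
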