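import Pool.Agent.helper36.BP.SpecE
import Pool.Agent.helper36.BP.SpecR

/-!
# Project bp, Spec D: Moebius function of the elements, mean values over the frequencies, Heath-Brown's identity, the key estimate

Rules as in SpecE (import Pool.Agent.helper36.BP.SpecD).  `L = log x`; norms have the size `x²`; `fr α m = (α + 2πm)/(2 lep)`; `rf f n = ∑_{z ∈ FF n, nn z = n} f z`, so
`∑_{n ≤ u} rf f n nit t n = ∑_{z ∈ FF u} f z nit t (nn z)` (`SRF` of HK).  `pol f e t` = the part `2^e ≤ n < 2^(e+1)`.  `wt x 0 = 1`, `wt x 1 = log (nn z)`, `wt x 2 = mue z [nn z ≤ zx x]`, `zx x = ⌈4 x^(2/3)⌉`.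
-/

set_option autoImplicit false

open Finset
open Pool.Agent.FI Pool.Agent.HK
open Pool.Agent.CH (nit rgh ll2)
open Pool.Agent.SK (tr0 Th)

noncomputable section

namespace Pool.Agent.BP

/-! ## The Moebius function -/

/-- **GPP** (short, medium).  From RSP, RIN, THU (of HK, FI).  `F n = rf Ψ n = cv g h n`: `F 1 = 1`, `F p = g p + h p`, `F (p²) = (g p)² + g p h p + (h p)²`, so `g p h p = (F p)² - F (p²)`.  `p = 2` or `p ∣ d`: `F p = F (p²) = 0` by RIN (`ch8 2 = 0`).  `p ≡ ±3 mod 8`, `p ∤ d`: `F p = 0`, `F (p²) = 1` by RIN, `ch8 p = -1`.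
`p ≡ ±1 mod 8`, `p ∤ d`: `π` with `nn π = p` by THU (`ν = 2s`, `s² ≡ 2 mod p`), RSP with `m = 1` and `m = p`: `F (p²) = (F p)² - 1`. -/
def GPP_stmt : Prop := ∀ (d : ℕ) (Ψ : ℤ × ℤ → ℂ), Odd d → UC d Ψ → ∀ g h : ℕ → ℂ, CM g → CM h →
  (∀ n : ℕ, 1 ≤ n → rf Ψ n = cv g h n) → ∀ p : ℕ, p.Prime → g p * h p = if p ∣ d then 0 else ((ch8 p : ℝ) : ℂ)

/-- **GFM** (medium).  Both sides are multiplicative in `n`; induction with `Nat.recOnPosPrimePosCoprime` (or `Nat.multiplicative` tools for arithmetic functions).  `n = p^k`: left side `1, -(g+h)(p), g(p) h(p), 0` for `k = 0, 1, 2, ≥ 3` (`μ(p^j) = 0` for `j ≥ 2`).  Right side: `b = 1`: `μ(p^k) cv g h (p^k)`, i.e. `1, -(g+h)(p), 0`;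
`b = p`, `k ≥ 2`, coprime to `p^(k-2)` only for `k = 2`: `g(p) h(p)`.  `n = n₁ n₂` coprime: `b = b₁ b₂`, `b² ∣ n`, `Squarefree b`, `Coprime b (n/b²)` split into the conditions for `b₁, n₁` and `b₂, n₂`. -/
def GFM_stmt : Prop := ∀ g h : ℕ → ℂ, CM g → CM h → ∀ n : ℕ, 1 ≤ n →
  cv (mg g) (mg h) n = ∑ b ∈ n.divisors with (b ^ 2 ∣ n ∧ Squarefree b ∧ Nat.Coprime b (n / b ^ 2)),
    (ArithmeticFunction.moebius (n / b ^ 2) : ℂ) * cv g h (n / b ^ 2) * (g b * h b)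

/-- **MUE** (medium).  From GPP, GFM, SIZ.  Group the `z ∈ Fd`, `nn z = n`, by `b = gcd(z.1, z.2)`: `b` is odd, `z = b z₀`, `z₀ ∈ Fd` primitive, `nn z₀ = n/b²`.  `mue z ≠ 0` only if `b` is squarefree, coprime to `n/b²` and `n/b²` squarefree; in that case every `z₀ ∈ Fd` with `nn z₀ = n/b²` is primitive.  `Ψ z = Ψ (b,0) Ψ z₀`, and
`Ψ (b,0) = 1` if `gcd(b,d) = 1`, `= 0` otherwise (`nn (b,0) = b²`).  For squarefree `b`: `g(b) h(b) = ∏_{p ∣ b} g(p) h(p)` is `ch8 b` if `gcd(b,d) = 1` and `0` otherwise (GPP; `ch8` is multiplicative, it depends on the residue modulo 8; for even `b` both sides are `0` and there is no such `z`). -/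
def MUE_stmt : Prop := ∀ (d : ℕ) (Ψ : ℤ × ℤ → ℂ), Odd d → UC d Ψ → ∀ g h : ℕ → ℂ, CM g → CM h →
  (∀ n : ℕ, 1 ≤ n → rf Ψ n = cv g h n) → ∀ n : ℕ, 1 ≤ n → rf (fun z => (mue z : ℂ) * Ψ z) n = cv (mg g) (mg h) n

/-- **MMS** (medium).  From VMG, CHT, MUE, TRI, UCH, CNP, SRF.  `Ψ = HC ψ j i κ`, `UC d Ψ` (UCH), TRI gives `k₁ .. h₂`.  `DtR x A₁ R'` with `R' = x^K + (log x)^A₁`: `|k₁ p + k₂ p| = |rf (I1 d) p| ≤ #{z ∈ FF p : nn z = p}` (CNP); `Hs` for `cv g₁ g₂ = rf Ψ`: CHT with exponent `K + 2` and SRF (`x^K + (log x)^A₁ ≤ x^(K+2)`);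
`Hs` for `cv h₁ h₂ = rf Ψ²`: `Ψ² = HC ψ² 0 0 (2κ)` on the odd elements, `IsRC d (ψ²)`, `UInv (ψ²) 0 (2κ)`, `2κ ≠ 0`; CHT again.  VMG and MUE. -/
def MMS_stmt : Prop := ∀ A B K : ℕ, ∃ x₀ : ℕ, ∀ x : ℕ, x₀ ≤ x → ∀ d : ℕ, Odd d → (d : ℝ) ≤ Real.log x ^ B →
  ∀ ψ : ℤ × ℤ → ℂ, IsRC d ψ → ∀ j i : ℕ, j ≤ 1 → i ≤ 1 → ∀ κ t : ℝ, UInv ψ j κ → κ ≠ 0 → |κ| ≤ (x : ℝ) ^ K → |t| ≤ (x : ℝ) ^ K →
  ‖∑ z ∈ FF x, (mue z : ℂ) * HC ψ j i κ z * nit t (nn z)‖ ≤ x / Real.log x ^ A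

/-! ## Mean values -/

/-- **PRC** (medium; products).  From FDE, FDU, CN2, SIZ.  Induction on `r` (`r = 0`: `FF 1 = {(1,0)}`, `b = 1` there and `0` elsewhere).  Two factors: `(∑_{z ∈ FF M} f z Ψ z)(∑_{w ∈ FF N} f' w Ψ w) = ∑_{v ∈ FF (MN)} b v Ψ v` with `b v = ∑ f z f' w` over the pairs with `v = u (z w)`, `u` a unit (`N8 u = 1`): every odd element has exactly one
associate in `Fd` (FDE, FDU), `nn v = nn z nn w`, `Ψ v = Ψ z Ψ w`.  For given `v` the element `w` is determined by `z`, and `nn z` is one of the `τ(nn v)` divisors of `nn v`, at most `τ(nn v)²` elements `z` for each (CN2): at most `τ(nn v)³` pairs. -/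
def PRC_stmt : Prop := ∀ (r : ℕ) (f : Fin r → ℤ × ℤ → ℂ) (N : Fin r → ℕ) (V : ℝ), 1 ≤ V → (∀ k z, ‖f k z‖ ≤ V) → (∀ k, 1 ≤ N k) →
  ∃ b : ℤ × ℤ → ℂ, (∀ v ∈ FF (∏ k, N k), ‖b v‖ ≤ V ^ r * (#(nn v).divisors : ℝ) ^ (3 * r)) ∧
    ∀ Ψ : ℤ × ℤ → ℂ, MU Ψ → ∏ k, ∑ z ∈ FF (N k), f k z * Ψ z = ∑ v ∈ FF (∏ k, N k), b v * Ψ v

/-- **TDM** (medium).  From SIZ, CN1, `SK.TAM_stmt`.  `z = g z₀`, `g = gcd`, `z₀ ∈ Fd` primitive, `n₀ = nn z₀ = nn z/g² ≤ M/g²`, `τ(g² n₀) ≤ τ(g)² τ(n₀)`; for each `n₀` at most `τ(n₀)` elements `z₀` (CN1): the sum is at most `∑_{g ≤ √M} τ(g)^(2c) √M ∑_{n ≤ M/g²} τ(n)^(c+1) n^(-1/2)`, the inner sum is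
`≤ C (√M/g) (1 + log M)^E` (dyadic blocks and TAM), and `∑ τ(g)^(2c)/g ≤ (1 + log M)^(4^c)` (TAM). -/
def TDM_stmt : Prop := ∀ c : ℕ, ∃ (C : ℝ) (E : ℕ), 0 < C ∧ ∀ M : ℕ, 1 ≤ M →
  ∑ z ∈ FF M, (#(nn z).divisors : ℝ) ^ c * √(M * (Int.gcd z.1 z.2 : ℝ) ^ 2 / nn z) ≤ C * M * (1 + Real.log M) ^ E

open scoped Classical in
/-- **CLP** (medium; close elements).  From SIZ.  `z = g z₀`, `z₀ = (a,l)` primitive, `n₀ = nn z₀`, `yy z₀ = yy z`.  Replace `w` by `w' = ε^(-k) w` (`ε = (3,1)`, `yy ε = 2 lep`): `|yy w' - yy z₀| ≤ ρ`, same sign of the norm, coordinates at most `C √M`.  `Δ = a w'.2 - l w'.1`.  With `s = a + l√8`, `t = a - l√8`, `s', t'` for `w'`: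
`s' t - s t' = 2√8 Δ`, `s' t` and `s t'` have the same sign (their product is `N8 z₀ N8 w' > 0`) and `|s't|/|st'| = exp(yy w' - yy z₀)`, so `2√8 |Δ| = 2 √(n₀ nn w) sinh(|yy w' - yy z₀|/2) ≤ 2 √(n₀ M) ρ`: at most `2ρ√(n₀ M) + 1` values of `Δ`.  For each value the solutions `w'` are `w* + λ z₀`, `λ ∈ ℤ` (`gcd(a,l) = 1`),
and `max(|a|,|l|) ≥ √n₀/3`: at most `C √(M/n₀) + 1` solutions.  The product is `≤ C (ρ M + √(M/n₀))` as `n₀ ≤ M`. -/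
def CLP_stmt : Prop := ∃ C : ℝ, 0 < C ∧ ∀ (M : ℕ) (ρ : ℝ) (k : ℤ), 1 ≤ M → 0 ≤ ρ → ρ ≤ 1 → |k| ≤ 1 → ∀ z ∈ FF M,
  (#{w ∈ FF M | (N8 w).sign = (N8 z).sign ∧ |yy w - yy z - 2 * k * lep| ≤ ρ} : ℝ) ≤
    C * (ρ * M + √(M * (Int.gcd z.1 z.2 : ℝ) ^ 2 / nn z))

/-- **FJB** (short, medium).  `K fjk K u = |∑_{0 ≤ m < K} e(mu)|²` (the number of pairs `(a,b) ∈ [0,K)²` with `a - b = m` is `K - |m|`), `|∑_{m<K} e(mu)| ≤ K` and `= |sin πKu|/|sin πu| ≤ 1/(2|u|)` for `0 < |u| ≤ 1/2` (`sin(π|u|) ≥ 2|u|`).  The integral picks the term `m = 0`. -/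
def FJB_stmt : Prop := ∀ K : ℕ, 1 ≤ K →
  (∀ u : ℝ, (fjk K u).im = 0 ∧ 0 ≤ (fjk K u).re ∧ (fjk K u).re ≤ K ∧ fjk K (u + 1) = fjk K u ∧ fjk K (-u) = fjk K u) ∧
  (∀ u : ℝ, 0 < |u| → |u| ≤ 1 / 2 → (fjk K u).re ≤ 1 / (4 * K * u ^ 2)) ∧
  ∫ u in (-(1 / 2 : ℝ))..(1 / 2), fjk K u = 1

/-- **MVH** (medium, long; the mean value theorem).  From FJB, CLP, TDM, YYB, FFC.  Split `b = b₊ + b₋` by the sign of `N8` (factor `2`).  `1 ≤ 2(1 - |m|/(2K))` for `|m| ≤ K`, so the sum is at most `2 ∑_{v,w} b_v conj(b_w) exp(iα(yy v - yy w)/(2 lep)) fjk (2K) ((yy v - yy w)/(2 lep)) ≤ 2 ∑_{v,w} |b_v| |b_w| fjk(2K)(..) ≤ 2 ∑_v |b_v|² ∑_w fjk(2K)(..)`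
(`fjk ≥ 0`, even; `v, w` of the same sign).  For fixed `v`: `(yy v - yy w)/(2 lep) ∈ [-1, 1]` (YYB); let `k ∈ {-1,0,1}` be the nearest integer to `(yy w - yy v)/(2 lep)`, `δ = |yy w - yy v - 2k lep| ≤ lep`: `fjk(2K) ≤ min(2K, lep²/(2Kδ²))`.  For each `k` by CLP: `δ ≤ 1/K`: `2K · C(M/K + R_v)`, `R_v = √(M gcd²/nn v)`; `2^s/K < δ ≤ 2^(s+1)/K ≤ 1`:
`C K 4^(-s) · C (2^(s+1) M/K + R_v)`; `δ > 1/2`: `C/K · 25M` (FFC).  Total `≤ C (M + K R_v) ≤ C (M + K) R_v` (`R_v ≥ 1`), and `∑_v |b_v|² R_v ≤ V² C M (1 + log M)^E` by TDM with `2c`. -/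
def MVH_stmt : Prop := ∀ c : ℕ, ∃ (C : ℝ) (E : ℕ), 0 < C ∧ ∀ (M K : ℕ) (V α : ℝ) (b : ℤ × ℤ → ℂ), 1 ≤ M → 1 ≤ K → 0 ≤ V →
  (∀ v ∈ FF M, ‖b v‖ ≤ V * (#(nn v).divisors : ℝ) ^ c) →
  ∑ m ∈ Icc (-(K : ℤ)) K, ‖∑ v ∈ FF M, b v * Complex.exp (((fr α m * yy v : ℝ) : ℂ) * Complex.I)‖ ^ 2 ≤
    C * V ^ 2 * (K + M) * M * (1 + Real.log M) ^ E

/-! ## The polynomials -/

/-- **PF1** (short, medium; smooth polynomials).  From SMA, SMB, SRF.  `S(u) = ∑_{z ∈ FF u} HC nit t (nn z)`: SMA (if `ψ ≠ 1` somewhere on the elements coprime to `d`, or `j = 1`) or SMB (`κ ≠ 0`) for `u ≤ 2^(e+1)`: `(1 + |κ| + |t|(1 + log u)) ≤ (1 + |κ| + |t|)(2 + e)`.  `a = 0`: `S(2^(e+1)-1) - S(2^e-1)`.  `a = 1`: Abel summation with the increasing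
weight `log n ≤ e + 1`. -/
def PF1_stmt : Prop := ∃ C : ℝ, 0 < C ∧ ∀ d : ℕ, Odd d → ∀ ψ : ℤ × ℤ → ℂ, IsRC d ψ → ∀ j i : ℕ, j ≤ 1 → i ≤ 1 → ∀ κ t : ℝ, UInv ψ j κ → κ ≠ 0 →
  ∀ x a e : ℕ, a ≤ 1 →
  ‖pol (fun z => wt x a z * HC ψ j i κ z) e t‖ ≤ C * (d : ℝ) ^ 3 * (1 + |κ| + |t|) * (e + 1) ^ 3 * √((2 : ℝ) ^ e)

/-- **PF2** (medium; logarithmic saving for all polynomials).  From CHT, MMS, SRF.  `2^e ≥ x^(1/4)`.  `a = 0, 1`: differences of `S(u)`, `u ≤ 2^(e+1)`, bounded by CHT at the point `x` (`2^e - 1 ≥ exp(dl x)`) with exponent `A + 3`; `a = 1`: Abel summation, `log n ≤ 4L`.  `a = 2`: if `2^e > zx x` the polynomial is `0`; otherwise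
`∑_{z ∈ FF u}` with `u = min (2^(e+1) - 1) (zx x)` minus `u = 2^e - 1`: MMS at these points (`log u ≥ L/5`, `d ≤ L^B ≤ (log u)^(B+1)`, `|κ|, |t| ≤ x^K ≤ u^(5K)`). -/
def PF2_stmt : Prop := ∀ A B K : ℕ, ∃ x₀ : ℕ, ∀ x : ℕ, x₀ ≤ x → ∀ d : ℕ, Odd d → (d : ℝ) ≤ Real.log x ^ B →
  ∀ ψ : ℤ × ℤ → ℂ, IsRC d ψ → ∀ j i : ℕ, j ≤ 1 → i ≤ 1 → ∀ κ t : ℝ, UInv ψ j κ → κ ≠ 0 → |κ| ≤ (x : ℝ) ^ K → |t| ≤ (x : ℝ) ^ K →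
  ∀ a e : ℕ, a ≤ 2 → (x : ℝ) ^ (1 / 4 : ℝ) ≤ 2 ^ e → 2 ^ e ≤ 64 * x ^ 2 →
  ‖pol (fun z => wt x a z * HC ψ j i κ z) e t‖ ≤ (2 : ℝ) ^ e / Real.log x ^ A

/-- **PF3** (medium; mean values of products).  From PRC, MVH, UCH, SRF.  `pol (wt · HC) e t = ∑_{z ∈ FF (2^(e+1))} f z Ψ_m z` with `f z = wt x a z [2^e ≤ nn z < 2^(e+1)]`, `Ψ_m z = HC ψ j i (fr α m) z · nit t (nn z)`, `MU Ψ_m` (UCH).  Apply PRC with `f k` for `k ∈ I` and `f k = 1`, `N k = 1` for `k ∉ I` (`FF 1 = {(1,0)}`), `|f k| ≤ V = C L`: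
`∏_{k ∈ I} pol = ∑_{v ∈ FF M} b v Ψ_m v`, `M = ∏_{k∈I} 2^(e k + 1)`, `b` independent of `m`; `Ψ_m v = c_v exp(i fr α m yy v)`, `|c_v| ≤ 1`.  MVH with `c = 3r`; `log M ≤ C_r log x`. -/
def PF3_stmt : Prop := ∀ r : ℕ, ∃ (C : ℝ) (E : ℕ), 0 < C ∧ ∀ x : ℕ, 2 ≤ x → ∀ a e : Fin r → ℕ, (∀ k, a k ≤ 2) → (∀ k, 2 ^ e k ≤ 64 * x ^ 2) →
  ∀ I : Finset (Fin r), ∀ (d : ℕ) (ψ : ℤ × ℤ → ℂ), IsRC d ψ → ∀ (j i : ℕ) (α t : ℝ), (∀ m : ℤ, UInv ψ j (fr α m)) → ∀ K : ℕ, 1 ≤ K →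
  ∑ m ∈ Icc (-(K : ℤ)) K, ∏ k ∈ I, ‖pol (fun z => wt x (a k) z * HC ψ j i (fr α m) z) (e k) t‖ ^ 2 ≤
    C * Real.log x ^ E * (K + ∏ k ∈ I, (2 : ℝ) ^ e k) * ∏ k ∈ I, (2 : ℝ) ^ e k

/-- **CMB** (medium, long; the combinatorial inequality).  Pure inequalities.  `K₁ = x^(1/3-η)`, `Y = ∏ N k`, `A'` large against `A + E`.  `#T ≤ 2 L^E K₁` (`I = ∅`).  Let `k₁` be the index of the largest `N k`, `N₁ = N k₁ ≥ Y^(1/6) ≥ x^(1/4)`.  All sums are over `m ∈ T`, `P_I = ∏_{k∈I} P k`, `N_I = ∏_{k ∈ I} N k`; Cauchy-Schwarz: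
`∑ P_I ≤ √(#T) √(∑ P_I²)`.
(a) `N₁ ≥ x^(1-η)`: `S k₁` (as `8x^(2/3) < x^(1-η)`), `∑ ∏ P ≤ K₁ √N₁ · √(2L^E K₁) √(L^E (K₁ + R) R)`, `R = Y/N₁ ≤ 64 x^(1+η)`: `≤ 2 L^E (K₁² √Y + K₁^(3/2) √Y √R) ≤ C L^E (x^(5/3) + x^(2-η))`.
(b) `N₁ < x^(1-η)` and `B = Y/(N₁ N₂) < K₁`, `N₂` the second largest: `N₂ > Y/(N₁ K₁) ≥ x^(2/3+2η)/2^10`, so `S` holds for both, `∑ ≤ K₁² √(N₁ N₂) √(2L^E K₁) √(L^E · 2K₁ B) ≤ 2 L^E K₁³ √Y ≤ C L^E x^(2-3η)`.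
(c) `N₁ < x^(1-η)`, `B ≥ K₁`, `N₂ ≥ K₁`: `P₁ ≤ N₁/L^A'`, `∑ P₂ P_rest ≤ √(∑ P₂²) √(∑ P_rest²) ≤ √(2L^E N₂²) √(2 L^E B²)`: total `≤ 2 L^(E-A') Y`.
(d) `N₁ < x^(1-η)`, `N₂ < K₁`: all the others are `< K₁` and their product is `Y/N₁ ≥ x^(1+η)/2^10 > K₁³`.  Add them one by one to a set `I` until `N_I ≥ K₁`; then `N_I < K₁²` and the rest has product `≥ x^(1+η)/(2^10 K₁²) ≥ K₁`.  As in (c). -/
def CMB_stmt : Prop := ∀ (η : ℝ) (A E : ℕ), 0 < η → η ≤ 1 / 12 → ∃ A' x₀ : ℕ, ∀ x : ℕ, x₀ ≤ x → ∀ r : ℕ, r ≤ 6 →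
  ∀ (N : Fin r → ℝ) (S : Fin r → Prop) (P : Fin r → ℤ → ℝ) (T : Finset ℤ),
  (∀ k, 1 ≤ N k) → (x : ℝ) ^ 2 ≤ 2 ^ 10 * ∏ k, N k → ∏ k, N k ≤ 64 * (x : ℝ) ^ 2 → (∀ k m, 0 ≤ P k m) →
  (∀ k, S k → ∀ m ∈ T, P k m ≤ (x : ℝ) ^ (1 / 3 - η) * √(N k)) →
  (∀ k, (x : ℝ) ^ (1 / 4 : ℝ) ≤ N k → ∀ m ∈ T, P k m ≤ N k / Real.log x ^ A') →
  (∀ k, ¬ S k → N k ≤ 8 * (x : ℝ) ^ (2 / 3 : ℝ)) →
  (∀ I : Finset (Fin r), ∑ m ∈ T, ∏ k ∈ I, P k m ^ 2 ≤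
    Real.log x ^ E * ((x : ℝ) ^ (1 / 3 - η) + ∏ k ∈ I, N k) * ∏ k ∈ I, N k) →
  ∑ m ∈ T, ∏ k, P k m ≤ (x : ℝ) ^ 2 / Real.log x ^ A

/-- **KEB** (medium; one block).  From PF1, PF2, PF3, CMB.  CMB with `η/4`, `N k = 2^(e k)`, `S k ↔ a k ≤ 1`, `T = {m : fr α m ≠ 0}`, `P k m` = the norm of the polynomial; `|fr α m| ≤ 2 + 2M`, so PF1 gives `C L^(3B) (4 + 2M + |t|) (5L)^3 √N ≤ x^(1/3-η/4) √N`; PF3 (maximum of the constants for `r ≤ 6`, `E + 1`) with `K = M`; PF2 with `A'` from CMB, `K = 1`.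
If `a k = 2` and `2^(e k) > zx x` for some `k`, then this polynomial and the whole sum vanish; otherwise `2^(e k) ≤ zx x ≤ 8 x^(2/3)`. -/
def KEB_stmt : Prop := ∀ (η : ℝ) (A B : ℕ), 0 < η → η ≤ 1 / 3 → ∃ x₀ : ℕ, ∀ x : ℕ, x₀ ≤ x → ∀ d : ℕ, Odd d → (d : ℝ) ≤ Real.log x ^ B →
  ∀ ψ : ℤ × ℤ → ℂ, IsRC d ψ → ∀ j i : ℕ, j ≤ 1 → i ≤ 1 → ∀ α : ℝ, 0 ≤ α → α < 2 * Real.pi → (∀ m : ℤ, UInv ψ j (fr α m)) →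
  ∀ M : ℕ, 1 ≤ M → (M : ℝ) ≤ (x : ℝ) ^ (1 / 3 - η) → ∀ t : ℝ, |t| ≤ (x : ℝ) ^ (1 / 3 - η / 2) → ∀ r : ℕ, r ≤ 6 →
  ∀ a e : Fin r → ℕ, (∀ k, a k ≤ 2) → x ^ 2 ≤ 2 ^ 10 * ∏ k, 2 ^ e k → ∏ k, 2 ^ e k ≤ 64 * x ^ 2 →
  ∑ m ∈ Icc (-(M : ℤ)) M with fr α m ≠ 0, ∏ k, ‖pol (fun z => wt x (a k) z * HC ψ j i (fr α m) z) (e k) t‖ ≤
    (x : ℝ) ^ 2 / Real.log x ^ A

/-! ## The decomposition -/

/-- `f` cut at `z` -/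
def trn (z : ℕ) (f : ArithmeticFunction ℂ) : ArithmeticFunction ℂ := ⟨fun n => if n ≤ z then f n else 0, by simp⟩

/-- **HBI** (short, medium; Heath-Brown's identity of order 3).  `ε = 1 - F * trn z G`: for `1 ≤ n ≤ z` `(F * trn z G) n = (F * G) n`, so `ε n = 0` for `n ≤ z`, `ε^3 n = 0` for `n ≤ z^3` and `(G * H * ε^3) n = 0`.  Expand with `F * G = 1` (commutative ring): `G H = 3 G_z H - 3 G_z² F H + G_z³ F² H + G H ε³`. -/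
def HBI_stmt : Prop := ∀ (F G H : ArithmeticFunction ℂ) (z n : ℕ), F * G = 1 → 1 ≤ n → n ≤ z ^ 3 →
  (G * H) n = ∑ i ∈ Icc 1 3, (-1 : ℂ) ^ (i + 1) * (Nat.choose 3 i : ℂ) * ((trn z G) ^ i * F ^ (i - 1) * H) n

/-- **PDC** (medium; copy of Pool/Agent/helper52/SK/PRD.lean for complex functions). -/
def PDC_stmt : Prop := ∀ (R K : ℕ) (u : Fin R → ArithmeticFunction ℂ), (∀ i m, 2 ^ K ≤ m → u i m = 0) →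
  ∀ G : ℕ → ℂ, ∑ b ∈ Ioc 0 (2 ^ (K * R)), (∏ i, u i) b * G b =
    ∑ e ∈ Fintype.piFinset (fun _ : Fin R => range K),
      ∑ m ∈ Fintype.piFinset (fun i : Fin R => Ico (2 ^ e i) (2 ^ (e i + 1))), (∏ i, u i (m i)) * G (∏ i, m i)

/-- the kinds of the factors of the `i`-th term of Heath-Brown's identity -/
def ak (i : ℕ) (k : Fin (2 * i)) : ℕ := if (k : ℕ) < i then 2 else if (k : ℕ) + 1 < 2 * i then 0 else 1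

/-- one block -/
def blk (r : ℕ) (u : Fin r → ℕ → ℂ) (e : Fin r → ℕ) (G : ℕ → ℂ) : ℂ :=
  ∑ m ∈ Fintype.piFinset (fun k : Fin r => Ico (2 ^ e k) (2 ^ (e k + 1))), (∏ k, u k (m k)) * G (∏ k, m k)

/-- **KYD** (medium; the decomposition).  From HBI, PDC, MUE, LGC.  `F = rf Ψ`, `G = cv (mg g) (mg h) = rf (mue Ψ)` (MUE), `F * G = 1`, `LG g h * F = F log` (LGC), so `LG g h = G * (F log)`.  HBI with `z = zx x`, `64x² ≤ z³`.  `trn z G = rf (wt x 2 Ψ)`, `F log = rf (wt x 1 Ψ)`.  For `n ≤ 64x² < 2^E` all functions may be cut at `2^E`; the `i`-th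
product is `∏_k u k` (`Fin (2i)`, `Fin.prod_univ_eq_prod_range` or explicitly for `i = 1, 2, 3`), PDC with `G = W` (both `Ioc 0 (64x²)` and `Ioc 0 (2^(E·2i))` contain the support of `W`). -/
def KYD_stmt : Prop := ∀ (x d : ℕ) (Ψ : ℤ × ℤ → ℂ), 1 ≤ x → Odd d → UC d Ψ → ∀ g h : ℕ → ℂ, CM g → CM h →
  (∀ n : ℕ, 1 ≤ n → rf Ψ n = cv g h n) → ∀ (E : ℕ) (W : ℕ → ℂ), 64 * x ^ 2 < 2 ^ E → (∀ n, 64 * x ^ 2 < n → W n = 0) →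
  ∑ n ∈ Ioc 0 (64 * x ^ 2), LG g h n * W n = ∑ i ∈ Icc 1 3, (-1 : ℂ) ^ (i + 1) * (Nat.choose 3 i : ℂ) *
    ∑ e ∈ Fintype.piFinset (fun _ : Fin (2 * i) => range E),
      blk (2 * i) (fun k => rf (fun z => wt x (ak i k) z * Ψ z)) e W

/-- **THF** (short, medium; Fourier inversion for the tent).  From `SK.TRB_stmt`, `SK.THB_stmt`.  `tr0 v δ` is continuous and integrable, its Fourier transform `Th δ t exp(-itv)` is continuous and `O(min(δ, 4/(δt²)))`, so integrable: Mathlib's inversion theorem (`Continuous.fourierInv_fourier_eq`; compare `kernel` in Pool/Agent/helper74/TG/SW7.lean). -/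
def THF_stmt : Prop := ∀ δ : ℝ, 0 < δ → MeasureTheory.Integrable (Th δ) ∧ ∀ v x : ℝ,
  ((tr0 v δ x : ℝ) : ℂ) = 1 / (2 * Real.pi) * ∫ t : ℝ, Th δ t * Complex.exp (((t * (x - v) : ℝ) : ℂ) * Complex.I)

/-- **FTB** (short, medium).  From THF.  Insert THF for `tl v δ (∏ m k)` (`m k ≥ 1`: `log (∏ m k) = ∑ log (m k)`), exchange the finite sum and the integral: `exp(it(log (∏ m k) - v)) = exp(-itv) ∏ nit t (m k)`, and the sum over the tuples factors (`Finset.prod_univ_sum`).  `1/(2π) ≤ 1`. -/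
def FTB_stmt : Prop := ∀ (r : ℕ) (u : Fin r → ℕ → ℂ) (e : Fin r → ℕ) (v δ : ℝ), 0 < δ →
  ‖blk r u e (fun n => ((tl v δ n : ℝ) : ℂ))‖ ≤
    ∫ t : ℝ, ‖Th δ t‖ * ∏ k, ‖∑ n ∈ Ico (2 ^ e k) (2 ^ (e k + 1)), u k n * nit t n‖

/-- **KEY** (medium, long; the key estimate).  From KEB, KYD, FTB, THF, TRI, UCH, SRF, FFC, `SK.THB_stmt`.  `Ψ_m = HC ψ j i (fr α m)`, TRI (with UCH) gives `g, h`; `PW (64x²) (tl v δ) Ψ_m = ∑_{p ≤ 64x²} log p · tl p · rf Ψ_m p` (as SRF) `= ∑_{n ≤ 64x²} LG g h n · tl n` minus the proper prime powers (`‖LG n‖ ≤ 2Λ(n)`, at most `C x L` in total; times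
`2M + 1 ≤ 3x^(1/3)`: fine).  `tl v δ n ≠ 0` only for `x² < n < 64x²`.  KYD with `W = tl v δ` and the least `E` with `64x² < 2^E` (`E ≤ 5L`): at most `3 · 3 (5L)^6` blocks.  A block with `∏ 2^(e k) > 64x²` or `2^10 ∏ 2^(e k) < x²` vanishes (`∏ 2^(e k) ≤ ∏ m k < 2^6 ∏ 2^(e k)`).  For the others sum FTB over `m ∈ T = {m : fr α m ≠ 0}`:
`∑_m ‖blk‖ ≤ ∫ ‖Th δ t‖ ∑_m ∏_k ‖pol_k‖ dt`.  `|t| ≤ T₀ = x^(1/3-η/2)`: KEB with exponent `A + 8`, and `∫ ‖Th δ‖ ≤ ∫ min(δ, 4/(δt²)) ≤ 8`.  `|t| > T₀`: `‖pol‖ ≤ 25 · 2^(e+1) · 5L` (FFC), the product is `≤ C x² L^6`, `∫_{|t| > T₀} ‖Th δ‖ ≤ 8/(δ T₀)`: `(2M+1) C x² L^6 · 8 L^Kd/T₀ ≤ x^(2-η/3)`.  (`M = 0`: enlarge to `M = 1`.) -/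
def KEY_stmt : Prop := ∀ (η : ℝ) (A B Kd : ℕ), 0 < η → η ≤ 1 / 3 → ∃ x₀ : ℕ, ∀ x : ℕ, x₀ ≤ x → ∀ d : ℕ, Odd d → (d : ℝ) ≤ Real.log x ^ B →
  ∀ ψ : ℤ × ℤ → ℂ, IsRC d ψ → ∀ j i : ℕ, j ≤ 1 → i ≤ 1 → ∀ α : ℝ, 0 ≤ α → α < 2 * Real.pi → (∀ m : ℤ, UInv ψ j (fr α m)) →
  ∀ M : ℕ, (M : ℝ) ≤ (x : ℝ) ^ (1 / 3 - η) → ∀ v δ : ℝ, 1 / Real.log x ^ Kd ≤ δ → δ ≤ 1 →
  2 * Real.log x ≤ v - δ → v + δ ≤ Real.log (64 * x ^ 2) →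
  ∑ m ∈ Icc (-(M : ℤ)) M with fr α m ≠ 0, ‖PW (64 * x ^ 2) (tl v δ) (HC ψ j i (fr α m))‖ ≤ (x : ℝ) ^ 2 / Real.log x ^ A

end Pool.Agent.BP
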