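import Pool.Agent.helper36.BP.Defs

/-!
# Project bp, Spec E: exponential sums, cancellation in the character sums over `ℤ[√8]`

RULES.  File `Pool/Agent/<seat>/BP/XX.lean`, `import Pool.Agent.helper36.BP.SpecE` (or the Spec file which contains the row), `namespace Pool.Agent.BP`, the `open` lines of the Spec file,
`theorem XX (h1 : YY_stmt) ... : XX_stmt`, auxiliary lemmas prefixed `XX_` (private where possible).  Never change this file.  If a statement is wrong tell helper36 at once.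
No `convert` / `congr!`, no `native_decide`, no straight double quotes.  Other statements may be used as hypotheses only; the hypotheses named in the lock note are enough.

Elements of `ℤ[√8]` are pairs `z = (a, l) ↔ a + l √8`.  `yy z = log (|a + l√8|/|a - l√8|)`, `nn z = |a + l√8| |a - l√8|`, so with `α = κ + τ`, `β = τ - κ`:
`exp(i κ yy z) nn(z)^(iτ) = |a + l√8|^(iα) |a - l√8|^(iβ)` (`nit t x = x^(it)`).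
-/

set_option autoImplicit false

open Finset
open Pool.Agent.FI Pool.Agent.HK
open Pool.Agent.CH (nit rgh ll2)
open Pool.Agent.SK (tr0 Th)

noncomputable section

namespace Pool.Agent.BP

/-- **LOB** (long; copy of Pool/Agent/helper22/CH/LOC.lean).  From `CH.VMV_stmt`, `CH.DH_stmt`, `CH.TJ_stmt`.  `μ = max |α| |β| = N^λ`, `λ ∈ [1/2, l]`.  We may assume `log N ≥ C' l^9` (otherwise trivial for `C` large: `ρ ≤ 1`).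
`k = 5l`, `r = 2k²`, `s = kr = 2k³`, `Y = ⌊N^(2/5)⌋`.  `|p + uv| = |p| (1 + w)`, `w = uv/p`, `|w| ≤ N^(-1/5) ≤ 1/2`, `log (1+w) = ∑_{j≤k} (-1)^(j-1) w^j/j + O(|w|^(k+1))`, the same for `q`, and `μ N^(-(k+1)/5) ≤ N^(-1/5)`, so the term is a constant of absolute value `1` times
`ee (∑_{j≤k} α_j (uv)^j) + O(N^(-1/5))` with `α_j = (-1)^(j-1) (α/p^j + β/q^j)/(2πj)`.  Choose an integer `j₀` with `5λ/3 + 3/10 ≤ j₀ ≤ 5λ - 3/10`, `M = sY^(j₀)`: `|α_(j₀)| ≤ 2μN^(-j₀)/(2π)`, so `|α_(j₀)| M ≤ s N^(λ-3j₀/5) ≤ s N^(-0.18) ≤ 1/2`;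
`NDp` gives `|α_(j₀)| ≥ ρ μ (50N)^(-j₀)/(2πj₀)`, so `1/(|α_(j₀)| M²) ≤ C 200^k k N^(j₀/5-λ)/ρ ≤ C 200^k k N^(-0.06)/ρ`, `1/M ≤ 2 N^(-2/5)`.  TJ for `j₀`, the trivial bound `(2sY^j+1)² ≤ (3sY^j)²` for the others, VMV for `r` and `2r` (`2s = k·2r`), DH.  The only new factor compared with LOC is `1/ρ` (its `4s²`-th root
is at most `1/ρ`) and `200^k` instead of `16^k`. -/
def LOB_stmt : Prop := ∃ C : ℕ, 0 < C ∧ ∀ (l N : ℕ) (α β p q ρ : ℝ), 1 ≤ l → 1 ≤ N → 0 < ρ → ρ ≤ 1 →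
  √(N : ℝ) ≤ max |α| |β| → max |α| |β| ≤ (N : ℝ) ^ l → NDp l ρ N α β p q →
  ‖∑ u ∈ Ioc 0 ⌊(N : ℝ) ^ (2 / 5 : ℝ)⌋₊, ∑ v ∈ Ioc 0 ⌊(N : ℝ) ^ (2 / 5 : ℝ)⌋₊,
      nit α |p + (u : ℝ) * v| * nit β |q + (u : ℝ) * v|‖ ≤
    (N : ℝ) ^ (4 / 5 : ℝ) * (Real.exp (C * (l : ℝ) ^ 3) * (N : ℝ) ^ (-(1 / (C * (l : ℝ) ^ 6))) / ρ)

/-- **DYB** (medium; copy of Pool/Agent/helper16/CH/DYS.lean).  From LOB.  `f m = nit α |m + P| nit β |m + Q|` for all integers `m`, `‖f‖ = 1` (`nit` has absolute value `1`, also at `0`).  `‖∑_{Ioc a b} f(m) - ∑_{Ioc a b} f(m + h)‖ ≤ 2h` for `h ≥ 0`; average over `h = uv`, `u, v ≤ Y = ⌊N^(2/5)⌋`: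
`‖∑ f‖ ≤ Y^(-2) ∑_{m ∈ Ioc a b} ‖∑_{u,v} f(m + uv)‖ + 2Y²`, LOB with `p = m + P`, `q = m + Q`; at most `100N + 1` integers `m` (`|m + P| ≤ 50N`), `Y ≥ N^(2/5)/2`, `2 N^(4/5) = 2 N N^(-1/5)`. -/
def DYB_stmt : Prop := ∃ C : ℕ, 0 < C ∧ ∀ (l N : ℕ) (α β P Q ρ : ℝ) (a b : ℤ), 1 ≤ l → 1 ≤ N → 0 < ρ → ρ ≤ 1 →
  √(N : ℝ) ≤ max |α| |β| → max |α| |β| ≤ (N : ℝ) ^ l → (∀ m ∈ Ioc a b, NDp l ρ N α β (m + P) (m + Q)) →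
  ‖∑ m ∈ Ioc a b, nit α |m + P| * nit β |m + Q|‖ ≤
    (N : ℝ) * (Real.exp (C * (l : ℝ) ^ 3) * (N : ℝ) ^ (-(1 / (C * (l : ℝ) ^ 6))) / ρ)

/-- **NDG** (short, medium).  `c_j = log (|α|/|β|)/j`.  If `α = 0` or `β = 0` then `|α/p^j + β/q^j| = μ/|p|^j` or `μ/|q|^j`, `≥ μ/(50N)^j`.  Otherwise `|α/p^j + β/q^j| ≥ ||α|/|p|^j - |β|/|q|^j| = (|α|/|p|^j) |1 - s| = (|β|/|q|^j) |1 - 1/s|` with `s = (|β|/|α|) (|p|/|q|)^j`, `log s = j (log (|p|/|q|) - c_j)`, `|log s| > 2ρ`; so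
`|1 - s| ≥ 1 - e^(-2ρ) ≥ ρ` and `|1 - 1/s| ≥ ρ`.  Use the first form if `|α| ≥ |β|`, the second otherwise. -/
def NDG_stmt : Prop := ∀ (l : ℕ) (ρ N α β p q : ℝ), 0 < ρ → ρ ≤ 1 / 2 → 0 < N → N ≤ |p| → |p| ≤ 50 * N → N ≤ |q| → |q| ≤ 50 * N →
  (∀ j ∈ Icc 1 (5 * l), 2 * ρ < |Real.log (|p| / |q|) - Real.log (|α| / |β|) / j|) → NDp l ρ N α β p q

open scoped Classical in
/-- **RWB** (medium, long; one row).  From DYB, NDG.  `p = m + w > 0`, `q = m - w < 0`, `y(m) = log ((w + m)/(w - m))` is strictly increasing on `|m| < w`.  `c_j = log (|α|/|β|)/j`.  Bad `m`: counted trivially (first term).  For the good `m ∈ J` let `σ(m) = #{j ∈ Icc 1 (5l) : c_j < y(m)} ≤ 5l`.  If `m₁ < m₂ < m₃`, `m₁, m₃` good with `σ(m₁) = σ(m₃)`,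
then `m₂ ∈ J` is good with the same `σ`: `{j : c_j < y(m₁)} ⊆ {j : c_j < y(m₃)}` have the same cardinality, so they are equal, and `y(m₂)` lies between `y(m₁)` and `y(m₃)`, which are on the same side of each `c_j` at distance `> 2ρ`.  So the good `m` with `σ(m) = s` and `m = D m' + r`, `0 ≤ r < D`, give an order-convex set of
`m'`, i.e. an `Ioc a b` (or empty).  On it `χ m` is constant and `|m ± w| = D |m' + (r ± w)/D|`, so up to a constant factor of absolute value `1` the sum is that of DYB with `P = (r+w)/D`, `Q = (r-w)/D` (NDG; `N ≤ |m' + P| ≤ 50 N` etc.).  Total `(5l+1) D` pieces; `5l + 1 ≤ exp(3 l³)` is absorbed by a larger `C`. -/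
def RWB_stmt : Prop := ∃ C : ℕ, 0 < C ∧ ∀ (l N D : ℕ) (α β w ρ : ℝ) (χ : ℤ → ℂ) (J : Finset ℤ), 1 ≤ l → 1 ≤ N → 1 ≤ D → 0 < ρ → ρ ≤ 1 / 2 →
  √(N : ℝ) ≤ max |α| |β| → max |α| |β| ≤ (N : ℝ) ^ l → (∀ m, χ (m + D) = χ m) → (∀ m, ‖χ m‖ ≤ 1) →
  (∀ a ∈ J, ∀ b ∈ J, ∀ m, a ≤ m → m ≤ b → m ∈ J) →
  (∀ m ∈ J, |(m : ℝ)| < w ∧ (D : ℝ) * N ≤ w - |(m : ℝ)| ∧ w + |(m : ℝ)| ≤ 50 * (D * N)) →
  ‖∑ m ∈ J, χ m * (nit α |m + w| * nit β |m - w|)‖ ≤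
    #{m ∈ J | ∃ j ∈ Icc 1 (5 * l), |Real.log ((w + m) / (w - m)) - Real.log (|α| / |β|) / j| ≤ 2 * ρ} +
    (D : ℝ) * N * (Real.exp (C * (l : ℝ) ^ 3) * (N : ℝ) ^ (-(1 / (C * (l : ℝ) ^ 6))) / ρ)

/-- **SCW** (short, medium; the number of elements in a sector).  `z = (a,l) ∈ FE v`.  `|a| < 2l` (`l ≤ √v`): for fixed `l` the function `a ↦ yy z = log ((l√8 + a)/(l√8 - a))` has derivative `2√8 l/(8l² - a²) ≥ 0.7/l`, so the `a` of the set lie in an interval of length `≤ 3ρl`: at most `3ρl + 1`.  `4|l| < a` (`a ≤ √(2v)`): for fixed `a` the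
function `l ↦ log ((a + l√8)/(a - l√8))` has derivative `2√8 a/(a² - 8l²) ≥ 5/a`: at most `ρa + 1` values of `l`.  Sum over `l ≤ √v`, resp. `a ≤ √(2v)`.  (Instead of derivatives: monotonicity of `log` and `log t ≥ 1 - 1/t`.) -/
def SCW_stmt : Prop := ∃ C : ℝ, 0 < C ∧ ∀ (v : ℕ) (c ρ : ℝ), 1 ≤ v → 0 ≤ ρ →
  (#{z ∈ FE v | |yy z - c| ≤ ρ} : ℝ) ≤ C * (ρ * v + √v)

/-- **CHB** (medium, long; large height).  From RWB, SCW.  `L = log x`, `α = κ + τ`, `β = τ - κ`, `μ = max |α| |β| ≤ 2x^K`.  `ρ = L^(-(A+2))`.  Split `FF v` into the two regions and into rows.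
Region 2 (`|a| < 2l`): outer variable `n = l ≤ √v`, inner `m = a`, `w = √8 n`, `χ(m) = ψ(m,n) (-1)^(jn) (-1)^i [m odd]`; region 1 (`4|l| < a`): outer `n = a` odd, `n ≤ √(2v)`, inner `m = l`, `w = n/√8`, `χ(m) = ψ(n,m) (-1)^(j|m|)`.  Both have period `D = 2d`.  `|a + l√8| = |m + w|` or `√8 |m + w|`, `|a - l√8| = |m - w|` or `√8 |m - w|`
(constant factors `nit α √8` of absolute value `1`), `yy z = log ((w+m)/(w-m))`.  `J` = the `m ≥ 0` (resp. `m < 0`) of the region with `nn ≤ v`: order-convex (`8n² - m² ≤ v`, `n² - 8m² ≤ v`).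
Rows with `n ≤ √v/L^(A+1)`: trivially at most `C v/L^(2A+2)` elements.  Other rows: `N = ⌊n/(20d)⌋`: region 2: `w - |m| > 0.82 n`, `w + |m| < 4.83 n`; region 1: `w - |m| > 0.103 n`, `w + |m| < 0.604 n`; since `n/d ≥ 600` both satisfy `DN ≤ w - |m|`, `w + |m| ≤ 50 DN`.
`√N ≤ (2v)^(1/4)/4 ≤ μ`.  `N ≥ √v/(40 d L^(A+1)) ≥ exp(dl x/3)`, `l = ⌈6(K+1) L/dl x⌉` (`≤ 7(K+1) L^(1/20)`), so `2x^K ≤ N^l`.  RWB: the bad elements are in total at most `5l · C (2ρ v + √v)` by SCW, and `exp(C l³) N^(-1/(C l⁶))/ρ ≤ L^(-A-2)` since `l³ ≤ C L^(3/20)`, `log N/l⁶ ≥ c L^(19/20-6/20)`.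
At most `2 (√v + √(2v))` rows, each `D N ≤ √(2v)/10`. -/
def CHB_stmt : Prop := ∀ A B K : ℕ, ∃ x₀ : ℝ, ∀ x : ℝ, x₀ ≤ x → ∀ d : ℕ, Odd d → (d : ℝ) ≤ Real.log x ^ B →
  ∀ ψ : ℤ × ℤ → ℂ, IsRC d ψ → ∀ j i : ℕ, j ≤ 1 → i ≤ 1 → ∀ κ τ : ℝ, |κ| ≤ x ^ K → |τ| ≤ x ^ K →
  ∀ v : ℕ, Real.exp (CH.dl x) ≤ v → (v : ℝ) ^ (1 / 4 : ℝ) ≤ max |κ + τ| |τ - κ| →
  ‖∑ z ∈ FF v, HC ψ j i κ z * nit τ (nn z)‖ ≤ v / Real.log x ^ A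

/-- **VTT** (short, medium; the variation with the twist).  From `TV2_stmt` (statement in Pool/Agent/helper36/HK/Spec.lean; template: Pool/Agent/helper89/HK/VAB.lean).  `Fy` is the sum of four functions `1_P s exp(iκ yy z)` (P1: `0 ≤ l`, `4l < a`; P2: `l < 0`, `-4l < a`; P3: `0 ≤ a < 2l`; P4: `a < 0`, `-a < 2l`; each with `nn z ≤ y`), so
`Fyt` is the sum of the products `F₁ F₂`, `F₁ = 1_P s exp(iκ yy z)`, `F₂ = 1_P exp(iτ log (nn z))`, and `Va (F₁ F₂) ≤ Va F₁ + Va F₂` (both bounded by `1`).  TV2 for `F₁` as in VAB, and for `F₂` with `g = log (nn z)`, `K = log y`: on P1 `nn z = a² - 8l²` increases in `a`, decreases in `l`, on P3 `nn z = 8l² - a²` decreases in `a`, increases in `l`,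
P2, P4 similar; `1 ≤ nn z ≤ y` on `P`.  `y = 0`: `Fyt = 0`. -/
def VTT_stmt : Prop := ∃ C : ℝ, 0 < C ∧ ∀ (i : ℕ) (κ τ : ℝ) (y B : ℕ),
  Va (Fyt i κ τ y) B ≤ C * (1 + |κ| + |τ| * (1 + Real.log y)) * √(y : ℝ)

/-- **SMA** (medium; copy of Pool/Agent/helper64/HK/PNP.lean).  From VAR, VTT, SIZ.  `D = 2d`, `χ z = ψ z (-1)^(j |z.2|)` for odd `z`, `0` for even `z`; `∑_{z ∈ FF y} HC z nit = ∑_{z ∈ Bx (2y)} χ z * Fyt i κ τ y z`; the sum of `χ` over `[0,2d)²` vanishes. -/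
def SMA_stmt : Prop := ∃ C : ℝ, 0 < C ∧ ∀ d : ℕ, Odd d → ∀ ψ : ℤ × ℤ → ℂ, IsRC d ψ → ∀ j i : ℕ, j ≤ 1 →
  ∀ κ τ : ℝ, ((∃ z, Nat.Coprime (nn z) d ∧ ψ z ≠ 1) ∨ j = 1) → ∀ y : ℕ,
  ‖∑ z ∈ FF y, HC ψ j i κ z * nit τ (nn z)‖ ≤ C * (d : ℝ) ^ 3 * (1 + |κ| + |τ| * (1 + Real.log y)) * √(y : ℝ)

/-- **SMB** (medium, long; principal `ψ`, `κ ≠ 0`).  From VAR, VTT, PPR (of HK), SIZ, SRF.  `S(y) = ∑_{z ∈ FF y} Ψ z nit τ (nn z)`, `χ z = 1` for `z` odd with `gcd(nn z, d) = 1`, else `0`: `S(y) = ∑_{Bx (2y)} χ Fyt y`.  Since `Fyt (4y) (2w) = nit τ 4 · Fyt y w`,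
`∑_{z ∈ Bx (8y), 2 ∣ z} χ(z/2) Fyt (4y) z = nit τ 4 · S(y)`.  The function `χ' z = χ z - 4 [2 ∣ z] χ(z/2)` is periodic modulo `4d`, takes values `0, 1, -4`, and its sum over `[0,4d)²` is `4s - 4s = 0` (`s` = sum of `χ` over `[0,2d)²`).  VAR for `χ'/4`, VTT:
`‖S(4y) - 4 nit τ 4 · S(y)‖ ≤ C d³ (1 + |κ| + |τ|(1 + log (4y))) √y`.  With `a_k = 4^(-k) (nit τ 4)^(-k) S(4^k y)`: `‖a_(k+1) - a_k‖ ≤ C d³ (1 + |κ| + |τ|(1 + log y)) (k+2) 2^(-k) √y`, summable; and `a_k → 0` for fixed `y` since by PPR and Abel summation (`S(Y) = ∑_{n ≤ Y} rf Ψ n nit τ n`, `|nit τ n - nit τ (n+1)| ≤ |τ|/n`)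
`‖S(Y)‖ ≤ C_{κ,d} √Y (1 + |τ| (1 + log Y))`.  So `‖S(y)‖ = ‖a_0‖ ≤ ∑_k ‖a_(k+1) - a_k‖`. -/
def SMB_stmt : Prop := ∃ C : ℝ, 0 < C ∧ ∀ d : ℕ, Odd d → ∀ ψ : ℤ × ℤ → ℂ, IsRC d ψ → ∀ i : ℕ,
  ∀ κ τ : ℝ, (∀ z, Nat.Coprime (nn z) d → ψ z = 1) → κ ≠ 0 → UInv ψ 0 κ → ∀ y : ℕ,
  ‖∑ z ∈ FF y, HC ψ 0 i κ z * nit τ (nn z)‖ ≤ C * (d : ℝ) ^ 3 * (1 + |κ| + |τ| * (1 + Real.log y)) * √(y : ℝ)

/-- **CHT** (short, medium).  From CHB, SMA, SMB.  If `v^(1/4) ≤ max |κ+τ| |τ-κ|`: CHB.  Otherwise `|κ|, |τ| ≤ v^(1/4)` (`κ = (α-β)/2`, `τ = (α+β)/2`), and SMA or SMB (if `ψ = 1` on the coprime elements and `j = 0`; `κ ≠ 0`): `C L^(3B) (2 + log v) 3 v^(3/4) ≤ v/L^A` for `v ≥ exp(dl x)`, `x` large. -/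
def CHT_stmt : Prop := ∀ A B K : ℕ, ∃ x₀ : ℝ, ∀ x : ℝ, x₀ ≤ x → ∀ d : ℕ, Odd d → (d : ℝ) ≤ Real.log x ^ B →
  ∀ ψ : ℤ × ℤ → ℂ, IsRC d ψ → ∀ j i : ℕ, j ≤ 1 → i ≤ 1 → ∀ κ τ : ℝ, UInv ψ j κ → κ ≠ 0 → |κ| ≤ x ^ K → |τ| ≤ x ^ K →
  ∀ v : ℕ, Real.exp (CH.dl x) ≤ v → ‖∑ z ∈ FF v, HC ψ j i κ z * nit τ (nn z)‖ ≤ v / Real.log x ^ A

end Pool.Agent.BP
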